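import Pool.Agent.Lib_MP_5a4806_lc.MainA

/-!
# `≪` is not definable by Boolean combinations of existential formulas, even with parameters
-/

namespace Pool.Agent.Results.MP_5a4806_lc.ExistentialTypes

open FirstOrder PAtype

/-- For every degree `b` there are degrees `b ≤ a' ≤ a` with `b ≪ a` and not `b ≪ a'` such that
for all tuples `c` of degrees `≤ b` (so `b` itself is allowed) the tuples `(c, a)` and `(c, a')`
satisfy the same existential formulas, hence the same Boolean combinations of existential formulas,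
in the language of partial orders.

Consequently the class `{a | b ≪ a}` is not definable by such a formula with parameters `≤ b` (for
`b = 0`: the class of the degrees of complete extensions of PA is not so definable), and the
relation `≪` is not definable by such a formula with arbitrary parameters. -/
theorem result :
    (∀ b : TDeg, ∃ a a' : TDeg, b ≤ a' ∧ a' ≤ a ∧ LL b a ∧ ¬ LL b a' ∧
      ∀ (n : ℕ) (c : Fin n → TDeg), (∀ i, c i ≤ b) →
        ∀ φ : Language.order.Formula (Fin n ⊕ Fin 1), BoolExist φ →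
          (φ.Realize (Sum.elim c ![a]) ↔ φ.Realize (Sum.elim c ![a']))) ∧
    (∀ (b : TDeg) (n : ℕ) (c : Fin n → TDeg), (∀ i, c i ≤ b) →
      ∀ φ : Language.order.Formula (Fin n ⊕ Fin 1), BoolExist φ →
        ¬ ∀ a : TDeg, φ.Realize (Sum.elim c ![a]) ↔ LL b a) ∧
    (∀ (n : ℕ) (c : Fin n → TDeg) (φ : Language.order.Formula (Fin n ⊕ Fin 2)), BoolExist φ →
        ¬ ∀ b a : TDeg, φ.Realize (Sum.elim c ![b, a]) ↔ LL b a) := by
  have h1 : ∀ b : TDeg, ∃ a a' : TDeg, b ≤ a' ∧ a' ≤ a ∧ LL b a ∧ ¬ LL b a' ∧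
      ∀ (n : ℕ) (c : Fin n → TDeg), (∀ i, c i ≤ b) →
        ∀ φ : Language.order.Formula (Fin n ⊕ Fin 1), BoolExist φ →
          (φ.Realize (Sum.elim c ![a]) ↔ φ.Realize (Sum.elim c ![a'])) := by
    intro b
    obtain ⟨a, a', h1, h2, h3, h4, h5⟩ := exists_same_type b
    refine ⟨a, a', h1, h2, h3, h4, fun n c hc φ hφ => h5 _ _ _ ?_ φ hφ⟩
    rintro (i | i)
    · left; exact ⟨hc i, rfl⟩
    · right; rw [Subsingleton.elim i 0]; exact ⟨rfl, rfl⟩
  refine ⟨h1, ?_, ?_⟩
  · intro b n c hc φ hφ hdef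
    obtain ⟨a, a', -, -, h3, h4, h5⟩ := h1 b
    exact h4 ((hdef a').1 ((h5 n c hc φ hφ).1 ((hdef a).2 h3)))
  · intro n c φ hφ hdef
    obtain ⟨a, a', -, -, h3, h4, h5⟩ := exists_same_type (Finset.univ.sup c)
    set b := Finset.univ.sup c with hb
    refine h4 ((hdef b a').1 ((h5 _ (Sum.elim c ![b, a]) (Sum.elim c ![b, a']) ?_ φ hφ).1
      ((hdef b a).2 h3)))
    rintro (i | i)
    · left; exact ⟨Finset.le_sup (f := c) (Finset.mem_univ i), rfl⟩
    · fin_cases i
      · left; exact ⟨le_rfl, rfl⟩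
      · right; exact ⟨rfl, rfl⟩

end Pool.Agent.Results.MP_5a4806_lc.ExistentialTypes
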